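import Mathlib
import Pool.Agent.Lib.helper12.Primes
import Pool.Prelude.Def_F_8adaa765

namespace Pool.Agent.H.MP_8f0c89_nt

open Finset Pool.Agent.Lib.helper12 N435e839e

/-- the condition on `(n, q, a)` -/
def cond (n q a : ℕ) : Prop := a < n ∧ q ∣ n - a ∧ ∀ p : ℕ, p.Prime → p ∣ n - a → q < p ^ 2

open Classical in
noncomputable def T (M n : ℕ) : ℝ :=
  ∑ q ∈ (Finset.range (M + 1)).filter Nat.Prime, ∑ a ∈ Finset.Ico q (q * Nat.log 2 q),
    if cond n q a then (1 : ℝ) / a else 0

lemma log_pos_of_prime {p : ℕ} (hp : p.Prime) : 1 ≤ Nat.log 2 p :=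
  Nat.le_log_of_pow_le (by norm_num) (by simpa using hp.two_le)

lemma claimA (C : ℝ) (hC : ∀ P : Finset ℕ, (∀ p ∈ P, p.Prime) →
    ∑ p ∈ P, (1 : ℝ) / (p * Real.sqrt (Nat.log 2 p)) ≤ C) (M n : ℕ) (hn : n ≤ M) (S : Finset ℕ)
    (hS : ∀ a ∈ S, 0 < a ∧ a < n ∧ Proper n a)
    (hcop : ∀ a ∈ S, ∀ b ∈ S, a ≠ b → Nat.Coprime (n - a) (n - b)) :
    ∑ a ∈ S, (1 : ℝ) / a ≤ C + T M n := by
  classical
  rw [← Finset.sum_filter_add_sum_filter_not S
    (fun a => ∃ p : ℕ, p.Prime ∧ p ∣ n - a ∧ p * Nat.log 2 p ≤ a)]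
  apply add_le_add
  · set S1 := S.filter (fun a => ∃ p : ℕ, p.Prime ∧ p ∣ n - a ∧ p * Nat.log 2 p ≤ a) with hS1
    have h1 : ∀ a ∈ S1, ∃ p : ℕ, p.Prime ∧ p ∣ n - a ∧ p * Nat.log 2 p ≤ a := by
      intro a ha
      exact (Finset.mem_filter.1 ha).2
    choose! f hf using h1
    have hinj : Set.InjOn f S1 := by
      intro a ha b hb hab
      by_contra hne
      have hc := hcop a (Finset.mem_filter.1 ha).1 b (Finset.mem_filter.1 hb).1 hne
      have h2 := (hf a ha).2.1
      have h3 := (hf b hb).2.1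
      rw [← hab] at h3
      have := Nat.dvd_gcd h2 h3
      rw [hc] at this
      exact (hf a ha).1.one_lt.ne' (Nat.dvd_one.1 this)
    refine le_trans ?_ (hC (S1.image f) ?_)
    · rw [Finset.sum_image hinj]
      apply Finset.sum_le_sum
      intro a ha
      obtain ⟨hp, _, hle⟩ := hf a ha
      have hL := log_pos_of_prime hp
      have hL' : (1 : ℝ) ≤ Nat.log 2 (f a) := by exact_mod_cast hL
      have hpp : (0 : ℝ) < f a := by exact_mod_cast hp.pos
      have hsq : Real.sqrt (Nat.log 2 (f a)) ≤ Nat.log 2 (f a) := by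
        rw [Real.sqrt_le_left (by linarith)]
        nlinarith
      have hsq0 : 0 < Real.sqrt (Nat.log 2 (f a)) := Real.sqrt_pos.2 (by linarith)
      have hle' : (f a : ℝ) * Nat.log 2 (f a) ≤ a := by exact_mod_cast hle
      apply one_div_le_one_div_of_le (by positivity)
      calc (f a : ℝ) * Real.sqrt (Nat.log 2 (f a)) ≤ f a * Nat.log 2 (f a) := by gcongr
        _ ≤ a := hle'
    · intro p hp
      obtain ⟨a, ha, rfl⟩ := Finset.mem_image.1 hp
      exact (hf a ha).1
  · set S2 := S.filter (fun a => ¬ ∃ p : ℕ, p.Prime ∧ p ∣ n - a ∧ p * Nat.log 2 p ≤ a) with hS2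
    have h1 : ∀ a ∈ S2, ∃ q : ℕ, q ∈ (Finset.range (M + 1)).filter Nat.Prime ∧
        a ∈ Finset.Ico q (q * Nat.log 2 q) ∧ cond n q a := by
      intro a ha
      obtain ⟨haS, hna⟩ := Finset.mem_filter.1 ha
      obtain ⟨h0, han, q, hq, hqa, hqd⟩ := hS a haS
      push Not at hna
      refine ⟨q, ?_, ?_, han, hqd, ?_⟩
      · simp only [Finset.mem_filter, Finset.mem_range]
        exact ⟨by omega, hq⟩
      · simp only [Finset.mem_Ico]
        exact ⟨hqa, hna q hq hqd⟩
      · intro p hp hpd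
        have h2 := hna p hp hpd
        have h3 : Nat.log 2 p ≤ p := Nat.log_le_self 2 p
        have h4 : p * Nat.log 2 p ≤ p * p := Nat.mul_le_mul_left p h3
        nlinarith
    choose! f hf using h1
    unfold T
    rw [← Finset.sum_fiberwise_of_maps_to (s := S2) (t := (Finset.range (M + 1)).filter Nat.Prime)
      (g := f) (fun a ha => (hf a ha).1)]
    apply Finset.sum_le_sum
    intro q _
    rw [← Finset.sum_filter]
    apply Finset.sum_le_sum_of_subset_of_nonneg
    · intro a ha
      obtain ⟨ha2, rfl⟩ := Finset.mem_filter.1 ha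
      exact Finset.mem_filter.2 (hf a ha2).2
    · intro i _ _
      positivity

open Classical in
lemma inner_bound (M q a : ℕ) (hq : q.Prime) (hqM : q ≤ M) (s : Finset ℕ) (hs : ∀ n ∈ s, n ≤ M) :
    ∑ n ∈ s, (if cond n q a then (1 : ℝ) / n else 0) ≤
      (1 / q) * (2 * (1 + 2 * Real.log M) / Real.log q) := by
  rw [← Finset.sum_filter]
  set s1 := s.filter (fun n => cond n q a) with hs1
  have hqpos : (0 : ℝ) < q := by exact_mod_cast hq.pos
  have hinj : Set.InjOn (fun n => (n - a) / q) s1 := by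
    intro x hx y hy hxy
    obtain ⟨hx1, hx2, _⟩ := (Finset.mem_filter.1 hx).2
    obtain ⟨hy1, hy2, _⟩ := (Finset.mem_filter.1 hy).2
    simp only at hxy
    have e1 := Nat.div_mul_cancel hx2
    have e2 := Nat.div_mul_cancel hy2
    rw [hxy] at e1
    omega
  have hR := rough_sum_mul_le (s1.image (fun n => (n - a) / q)) M (Nat.sqrt q) (by
    intro m hm
    obtain ⟨n, hn, rfl⟩ := Finset.mem_image.1 hm
    obtain ⟨hn0, hx1, hx2, hx3⟩ := Finset.mem_filter.1 hn
    refine ⟨?_, ?_, ?_⟩
    · exact Nat.div_pos (Nat.le_of_dvd (by omega) hx2) hq.pos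
    · exact le_trans (Nat.div_le_self _ _) (by have := hs n hn0; omega)
    · intro p hp hpd
      have := hx3 p hp (hpd.trans (Nat.div_dvd_of_dvd hx2))
      exact Nat.sqrt_lt'.2 this)
  have hK : Real.log q / 2 ≤ H (Nat.sqrt q) := by
    refine le_trans ?_ (le_H _)
    have h1 : (q : ℝ) ≤ ((Nat.sqrt q : ℝ) + 1) ^ 2 := by
      have := Nat.lt_succ_sqrt' q
      exact_mod_cast this.le
    have h2 := Real.log_le_log hqpos h1
    rw [Real.log_pow] at h2
    push_cast at h2
    linarith
  have hlq : 0 < Real.log q := Real.log_pos (by exact_mod_cast hq.one_lt)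
  have hM : (1 : ℝ) ≤ M := by
    have := hq.one_le
    exact_mod_cast le_trans this hqM
  have hH : H (M * Nat.sqrt q) ≤ 1 + 2 * Real.log M := by
    refine le_trans (H_le _) ?_
    have h1 : Nat.sqrt q ≤ M := le_trans (Nat.sqrt_le_self q) hqM
    have h0 : 0 < Nat.sqrt q := Nat.sqrt_pos.2 hq.pos
    have h2 : ((M * Nat.sqrt q : ℕ) : ℝ) ≤ (M : ℝ) ^ 2 := by
      have := Nat.mul_le_mul_left M h1
      rw [sq]
      exact_mod_cast this
    have h3 : (0 : ℝ) < ((M * Nat.sqrt q : ℕ) : ℝ) := by
      have : 0 < M * Nat.sqrt q := Nat.mul_pos (by exact_mod_cast (lt_of_lt_of_le one_pos hM)) h0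
      exact_mod_cast this
    have h4 := Real.log_le_log h3 h2
    rw [Real.log_pow] at h4
    push_cast at h4 ⊢
    linarith
  have hnn : 0 ≤ ∑ m ∈ s1.image (fun n => (n - a) / q), (1 : ℝ) / m :=
    Finset.sum_nonneg (fun i _ => by positivity)
  have hR2 : ∑ m ∈ s1.image (fun n => (n - a) / q), (1 : ℝ) / m ≤
      2 * (1 + 2 * Real.log M) / Real.log q := by
    rw [le_div_iff₀ hlq]
    nlinarith
  calc ∑ n ∈ s1, (1 : ℝ) / n ≤ ∑ n ∈ s1, (1 / q) * ((1 : ℝ) / (((n - a) / q : ℕ) : ℝ)) := by
        apply Finset.sum_le_sum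
        intro n hn
        obtain ⟨hn0, hx1, hx2, hx3⟩ := Finset.mem_filter.1 hn
        have e1 := Nat.div_mul_cancel hx2
        have h0 : 0 < (n - a) / q := Nat.div_pos (Nat.le_of_dvd (by omega) hx2) hq.pos
        have h0' : (0 : ℝ) < (((n - a) / q : ℕ) : ℝ) := by exact_mod_cast h0
        rw [one_div_mul_one_div]
        apply one_div_le_one_div_of_le (by positivity)
        have : q * ((n - a) / q) ≤ n := by rw [mul_comm, e1]; omega
        exact_mod_cast this
    _ = (1 / q) * ∑ m ∈ s1.image (fun n => (n - a) / q), (1 : ℝ) / m := by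
        rw [Finset.sum_image hinj, Finset.mul_sum]
    _ ≤ _ := by gcongr

lemma a_sum (q : ℕ) (hq : q.Prime) :
    ∑ a ∈ Finset.Ico q (q * Nat.log 2 q), (1 : ℝ) / a ≤ 3 * Real.sqrt (Nat.log 2 q) := by
  have hL := log_pos_of_prime hq
  set L := Nat.log 2 q with hLdef
  have hL' : (1 : ℝ) ≤ L := by exact_mod_cast hL
  have hqpos : (0 : ℝ) < q := by exact_mod_cast hq.pos
  have h1 : Finset.Ico q (q * L) ⊆ Finset.Ioc (q - 1) (q * L) := by
    intro a ha
    simp only [Finset.mem_Ico, Finset.mem_Ioc] at ha ⊢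
    have := hq.pos
    omega
  have hle : q - 1 ≤ q * L := by
    have : q * 1 ≤ q * L := Nat.mul_le_mul_left q hL
    omega
  have h2 := Finset.sum_le_sum_of_subset_of_nonneg (f := fun a : ℕ => (1 : ℝ) / a) h1
    (fun i _ _ => by positivity)
  rw [sum_Ioc_eq _ _ hle] at h2
  have h3 := H_le (q * L)
  have h4 := le_H (q - 1)
  have h5 : ((q - 1 : ℕ) : ℝ) + 1 = q := by
    have := hq.one_le
    push_cast [Nat.cast_sub this]
    ring
  rw [h5] at h4
  push_cast at h3
  rw [Real.log_mul hqpos.ne' (by linarith)] at h3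
  have hs1 : 1 ≤ Real.sqrt L := by
    rw [Real.one_le_sqrt]; exact hL'
  have h6 : Real.log L ≤ 2 * Real.sqrt L := by
    have e : Real.log L = 2 * Real.log (Real.sqrt L) := by
      rw [Real.log_sqrt (by linarith)]; ring
    have := Real.log_le_sub_one_of_pos (show 0 < Real.sqrt L by linarith)
    linarith
  linarith

lemma claimB (C : ℝ) (hC : ∀ P : Finset ℕ, (∀ p ∈ P, p.Prime) →
    ∑ p ∈ P, (1 : ℝ) / (p * Real.sqrt (Nat.log 2 p)) ≤ C) (M : ℕ) (hM : 1 ≤ M)
    (s : Finset ℕ) (hs : ∀ n ∈ s, n ≤ M) :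
    ∑ n ∈ s, (1 / (n : ℝ)) * T M n ≤ 12 * C * (1 + 2 * Real.log M) := by
  classical
  unfold T
  simp only [Finset.mul_sum]
  rw [Finset.sum_comm]
  have hlM : 0 ≤ Real.log M := Real.log_nonneg (by exact_mod_cast hM)
  have hC' := hC ((Finset.range (M + 1)).filter Nat.Prime) (fun p hp => (Finset.mem_filter.1 hp).2)
  calc _ ≤ ∑ q ∈ (Finset.range (M + 1)).filter Nat.Prime,
        12 * (1 + 2 * Real.log M) * ((1 : ℝ) / (q * Real.sqrt (Nat.log 2 q))) := by
        apply Finset.sum_le_sum
        intro q hq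
        obtain ⟨hq1, hq2⟩ := Finset.mem_filter.1 hq
        have hqM : q ≤ M := by simpa [Nat.lt_succ_iff] using hq1
        rw [Finset.sum_comm]
        have hL := log_pos_of_prime hq2
        have hL' : (1 : ℝ) ≤ Nat.log 2 q := by exact_mod_cast hL
        have hqpos : (0 : ℝ) < q := by exact_mod_cast hq2.pos
        have hlq : (Nat.log 2 q : ℝ) / 2 ≤ Real.log q := by
          have h1 : (2 : ℝ) ^ (Nat.log 2 q) ≤ q := by
            exact_mod_cast Nat.pow_log_le_self 2 hq2.ne_zero
          have h2 := Real.log_le_log (by positivity) h1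
          rw [Real.log_pow] at h2
          have := Real.log_two_gt_d9
          nlinarith
        have hsq0 : 0 < Real.sqrt (Nat.log 2 q) := Real.sqrt_pos.2 (by linarith)
        have hsq : Real.sqrt (Nat.log 2 q) * Real.sqrt (Nat.log 2 q) = Nat.log 2 q :=
          Real.mul_self_sqrt (by linarith)
        calc _ ≤ ∑ a ∈ Finset.Ico q (q * Nat.log 2 q),
              (1 / (a : ℝ)) * ((1 / q) * (2 * (1 + 2 * Real.log M) / Real.log q)) := by
              apply Finset.sum_le_sum
              intro a _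
              refine le_trans (le_of_eq ?_)
                (mul_le_mul_of_nonneg_left (inner_bound M q a hq2 hqM s hs) (by positivity))
              rw [Finset.mul_sum]
              apply Finset.sum_congr rfl
              intro n _
              split_ifs <;> ring
          _ = (∑ a ∈ Finset.Ico q (q * Nat.log 2 q), (1 / (a : ℝ))) *
              ((1 / q) * (2 * (1 + 2 * Real.log M) / Real.log q)) := by
              rw [Finset.sum_mul]
          _ ≤ (3 * Real.sqrt (Nat.log 2 q)) *
              ((1 / q) * (2 * (1 + 2 * Real.log M) / ((Nat.log 2 q : ℝ) / 2))) := by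
              have := a_sum q hq2
              have h0 : 0 < Real.log q := by linarith
              gcongr
          _ = 12 * (1 + 2 * Real.log M) * ((1 : ℝ) / (q * Real.sqrt (Nat.log 2 q))) := by
              set r := Real.sqrt (Nat.log 2 q)
              rw [← hsq]
              field_simp
              ring
    _ = 12 * (1 + 2 * Real.log M) * ∑ q ∈ (Finset.range (M + 1)).filter Nat.Prime,
        ((1 : ℝ) / (q * Real.sqrt (Nat.log 2 q))) := by rw [Finset.mul_sum]
    _ ≤ 12 * (1 + 2 * Real.log M) * C := by gcongr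
    _ = _ := by ring

lemma greedy_le (b : Bool) (n t : ℕ) : ∀ a ∈ greedyPrefix b n t, a ≤ t := by
  induction t with
  | zero =>
    intro a ha
    cases b <;> simp [greedyPrefix] at ha
    omega
  | succ t ih =>
    intro a ha
    simp only [greedyPrefix] at ha
    split_ifs at ha
    · rcases Finset.mem_insert.1 ha with h | h
      · omega
      · have := ih a h; omega
    · have := ih a ha; omega

lemma greedy_cop (b : Bool) (n t : ℕ) : ∀ x ∈ greedyPrefix b n t, ∀ y ∈ greedyPrefix b n t,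
    0 < x → 0 < y → x ≠ y → Nat.Coprime (n - x) (n - y) := by
  induction t with
  | zero =>
    intro x hx y _ h0
    have := greedy_le b n 0 x hx
    omega
  | succ t ih =>
    intro x hx y hy hx0 hy0 hxy
    simp only [greedyPrefix] at hx hy
    split_ifs at hx hy with h
    · rcases Finset.mem_insert.1 hx with h1 | h1 <;> rcases Finset.mem_insert.1 hy with h2 | h2
      · omega
      · rcases h with h | h
        · have := greedy_le b n t y h2; omega
        · rw [h1]; exact h y h2
      · rcases h with h | h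
        · have := greedy_le b n t x h1; omega
        · rw [h2]; exact (h x h1).symm
      · exact ih x h1 y h2 hx0 hy0 hxy
    · exact ih x hx y hy hx0 hy0 hxy

theorem not_tendsto (b : Bool) : ¬ (Filter.Tendsto (properSum b) Filter.atTop Filter.atTop) := by
  classical
  intro h
  obtain ⟨C, hC0, hC⟩ := exists_prime_sum_bound
  have h1 := h.eventually (Filter.eventually_ge_atTop (C + 24 * C + 1))
  obtain ⟨N, hN⟩ := Filter.eventually_atTop.1 h1
  have hlog : Filter.Tendsto (fun M : ℕ => Real.log M) Filter.atTop Filter.atTop :=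
    Real.tendsto_log_atTop.comp tendsto_natCast_atTop_atTop
  obtain ⟨M, hM1, hM2⟩ := ((hlog.eventually
    (Filter.eventually_gt_atTop ((24 * C + 1) * H N + 12 * C))).and
    (Filter.eventually_ge_atTop (N + 1))).exists
  have hB := claimB C hC M (by omega) (Finset.Ioc N M) (fun n hn => (Finset.mem_Ioc.1 hn).2)
  have hA : ∀ n ∈ Finset.Ioc N M, (24 * C + 1) * (1 / (n : ℝ)) ≤ (1 / (n : ℝ)) * T M n := by
    intro n hn
    obtain ⟨hn1, hn2⟩ := Finset.mem_Ioc.1 hn
    have h2 := hN n hn1.le
    have h3 := claimA C hC M n hn2 ((selected b n).filter (Proper n)) (by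
      intro a ha
      obtain ⟨ha1, ha2⟩ := Finset.mem_filter.1 ha
      obtain ⟨_, ha3, ha4⟩ := Finset.mem_filter.1 ha1
      exact ⟨ha3, ha4, ha2⟩) (by
      intro x hx y hy hxy
      obtain ⟨hx1, hx2, _⟩ := Finset.mem_filter.1 (Finset.mem_filter.1 hx).1
      obtain ⟨hy1, hy2, _⟩ := Finset.mem_filter.1 (Finset.mem_filter.1 hy).1
      exact greedy_cop b n _ x hx1 y hy1 hx2 hy2 hxy)
    have h4 : properSum b n = ∑ a ∈ (selected b n).filter (Proper n), (1 : ℝ) / a := by
      unfold properSum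
      rfl
    rw [mul_comm]
    apply mul_le_mul_of_nonneg_left _ (by positivity)
    linarith
  have h5 := Finset.sum_le_sum hA
  rw [← Finset.mul_sum, sum_Ioc_eq _ _ (by omega)] at h5
  have h6 : Real.log M ≤ H M := by
    refine le_trans (Real.log_le_log ?_ (by linarith)) (le_H M)
    have : 0 < M := by omega
    exact_mod_cast this
  nlinarith

end Pool.Agent.H.MP_8f0c89_nt
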